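import Mathlib
import Pool.Agent.Helper625.M8
import Pool.Agent.Y745.HZ.Fin
import Pool.Agent.Y267.HZ.IN
import Pool.Agent.Y267.HZ.OUT

/-!
# The second primitive of Hardy's function: `G(T) = c T + O(T^(3/4))` with `c < 0`

`G(T) = ∫_0^T ∫_0^t Z(u) du dt`.  We prove the asymptotic formula `G(T) = c T + O(T^{3/4})`, where
`c` is the Abel mean `lim_{η → 0+} ∫_0^∞ Z(t) e^{-ηt} dt`, and `c ≤ -0.07`.

Idea of the proof.  The ramp `max(T-t,0)` is written as an absolutely convergent inverse Laplace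
integral over `Re p = 1/T`; the two-sided Laplace transform of the completed zeta function is a theta
function, which near the cusp is a sum of terms `(2 sin p)^{-1/2} exp(-k cot p)`, each of which is
estimated by shifting the path to its saddle points (`‖term‖ ≤ C √T / k`, plus an exponentially small
tail for `k > c T`).  The smooth rest of the transform gives the linear term.  This yields the formula
with remainder `O(√T)` for the weight `e^{πt/4}` instead of `1/|Γ(1/4+it/2)|`, and a double integration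
by parts against `t^{1/4}` gives the remainder `O(T^{3/4})` for Hardy's function itself.  The constant is
identified by Abel summation.
-/

namespace Pool.Agent.Results.MP_6f2ed2_nt.LinearMainTerm

open MeasureTheory Filter Topology Set

/-- The unimodular factor `e^{iθ(t)} = π^{-it/2} Γ(1/4+it/2) / |Γ(1/4+it/2)|`. -/
noncomputable def phase (t : ℝ) : ℂ :=
  (Real.pi : ℂ) ^ (-(Complex.I * (t : ℂ) / 2)) * Complex.Gamma (1 / 4 + Complex.I * (t : ℂ) / 2) /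
    ((‖Complex.Gamma (1 / 4 + Complex.I * (t : ℂ) / 2)‖ : ℝ) : ℂ)

/-- Hardy's function `Z(t) = e^{iθ(t)} ζ(1/2+it)`, as a real number. -/
noncomputable def hardyZ (t : ℝ) : ℝ :=
  (phase t * riemannZeta (1 / 2 + Complex.I * (t : ℂ))).re

/-- `F(T) = ∫_0^T Z(t) dt`. -/
noncomputable def F (T : ℝ) : ℝ := ∫ t in (0:ℝ)..T, hardyZ t

/-- `G(T) = ∫_0^T F(t) dt`. -/
noncomputable def G (T : ℝ) : ℝ := ∫ t in (0:ℝ)..T, F t

open Pool.Agent.Helper625

lemma cl_eq (t : ℝ) : ZF.cl t = 1 / 2 + Complex.I * (t : ℂ) := by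
  unfold ZF.cl; push_cast; ring

lemma arg_eq (t : ℝ) : (((1 / 4 : ℝ) : ℂ) + ((t / 2 : ℝ) : ℂ) * Complex.I) = 1 / 4 + Complex.I * (t : ℂ) / 2 := by
  push_cast; ring

lemma phase_zeta (t : ℝ) : phase t * riemannZeta (1 / 2 + Complex.I * (t : ℂ)) = ((M8.Zr t : ℝ) : ℂ) := by
  have hL := Th.Lc_eq t
  rw [M1.Lc_real, arg_eq, cl_eq] at hL
  have hg : Gam.g t = ‖Complex.Gamma (1 / 4 + Complex.I * (t : ℂ) / 2)‖ := by
    unfold Gam.g; rw [arg_eq]
  have hg0 : ((Gam.g t : ℝ) : ℂ) ≠ 0 := by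
    exact_mod_cast (Gam.g_pos t).ne'
  unfold M8.Zr phase
  rw [← hg]
  push_cast
  rw [hL]
  have hpi : (Real.pi : ℂ) ≠ 0 := by exact_mod_cast Real.pi_ne_zero
  have e1 : (Real.pi : ℂ) ^ (-(1 / 2 + Complex.I * (t : ℂ)) / 2) =
      (Real.pi : ℂ) ^ (-(1/4) : ℂ) * (Real.pi : ℂ) ^ (-(Complex.I * (t : ℂ) / 2)) := by
    rw [← Complex.cpow_add _ _ hpi]; congr 1; ring
  have e2 : ((Real.pi ^ (1/4 : ℝ) : ℝ) : ℂ) = (Real.pi : ℂ) ^ ((1/4 : ℂ)) := by
    rw [Complex.ofReal_cpow Real.pi_pos.le]; push_cast; rfl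
  have e3 : (Real.pi : ℂ) ^ ((1/4 : ℂ)) * (Real.pi : ℂ) ^ (-(1/4) : ℂ) = 1 := by
    rw [← Complex.cpow_add _ _ hpi]; simp
  rw [e2, e1]
  linear_combination (-(Real.pi : ℂ) ^ (-(Complex.I * (t : ℂ) / 2)) * Complex.Gamma (1 / 4 + Complex.I * (t : ℂ) / 2) *
    riemannZeta (1 / 2 + Complex.I * (t : ℂ)) / ((Gam.g t : ℝ) : ℂ)) * e3

lemma hardyZ_eq (t : ℝ) : hardyZ t = M8.Zr t := by
  unfold hardyZ; rw [phase_zeta, Complex.ofReal_re]

lemma F_eq (T : ℝ) : F T = M8.Fz T := by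
  unfold F M8.Fz
  simp only [hardyZ_eq]

lemma G_eq (T : ℝ) : G T = M8.Gz T := by
  unfold G M8.Gz
  simp only [F_eq]

/-- **Main theorem.**  `Z` is real, and there is a constant `c ≤ -0.07`, equal to the Abel mean
`lim_{η → 0+} ∫_0^∞ Z(t) e^{-ηt} dt`, such that `G(T) = c T + O(T^{3/4})`. -/
theorem result :
    (∀ t : ℝ, ((hardyZ t : ℝ) : ℂ) = phase t * riemannZeta (1 / 2 + Complex.I * (t : ℂ))) ∧
    ∃ c K : ℝ, c ≤ -0.07 ∧
      (∀ η : ℝ, 0 < η → IntegrableOn (fun t : ℝ => hardyZ t * Real.exp (-η * t)) (Ioi 0)) ∧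
      Tendsto (fun η : ℝ => ∫ t in Ioi (0:ℝ), hardyZ t * Real.exp (-η * t)) (𝓝[>] 0) (𝓝 c) ∧
      ∀ T : ℝ, 1 ≤ T → |G T - c * T| ≤ K * T ^ (3 / 4 : ℝ) := by
  obtain ⟨K, hK⟩ := Pool.Agent.Y745.HZ.gz_main Pool.Agent.Y267.HZ.t_IN Pool.Agent.Y267.HZ.t_OUT
  refine ⟨fun t => by rw [phase_zeta, hardyZ_eq], M8.C0, K, M8.C0_neg, ?_, ?_, ?_⟩
  · intro η hη
    simp only [hardyZ_eq]
    exact M8.Zr_exp_integ hη
  · simp only [hardyZ_eq]
    exact M8.A_tendsto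
  · intro T hT
    rw [G_eq]
    exact hK T hT

end Pool.Agent.Results.MP_6f2ed2_nt.LinearMainTerm
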